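import Pool.Agent.W559.Et.Stm3
import Pool.Agent.W762.ET.Tame
import Pool.Agent.W32.Et.Laur

/-!
# ET-CBSM: smoothness of the algebra of level zero
(The lemmas on eigencomponents and the twisted automorphism are copied from
`Pool.Agent.W479.EtSecW`.)
-/

set_option autoImplicit false
set_option linter.unusedSectionVars false

universe u v w

namespace Pool.Agent.W293.ET

open Pool.Agent.W559.Mg Pool.Agent.W559.Et Finset

section eig

variable {k : Type u} [Field k] {A : Type v} [CommRing A] [Algebra k A] (h : A →ₐ[k] A) (M : ℕ)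
  (ω : k)

/-- components for the characters of a cyclic group -/
noncomputable def eg (c : ℕ) (a : A) : A :=
  (M : k)⁻¹ • ∑ i ∈ range M, (ω⁻¹) ^ (c * i) • h^[i] a

lemma it_mem (B : Subalgebra k A) (hB : ∀ x ∈ B, h x ∈ B) (i : ℕ) {a : A} (ha : a ∈ B) :
    h^[i] a ∈ B := by
  induction i with
  | zero => exact ha
  | succ i ih => rw [Function.iterate_succ_apply']; exact hB _ ih

lemma eg_mem (B : Subalgebra k A) (hB : ∀ x ∈ B, h x ∈ B) (c : ℕ) {a : A} (ha : a ∈ B) :
    eg h M ω c a ∈ B := by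
  unfold eg
  exact B.smul_mem (B.sum_mem fun i _ => B.smul_mem (it_mem h B hB i ha) _) _

lemma h_eg (hω : IsPrimitiveRoot ω M) (hM : 0 < M) (hh : ∀ x, h^[M] x = x) (c : ℕ) (a : A) :
    h (eg h M ω c a) = algebraMap k A (ω ^ c) * eg h M ω c a := by
  have hω0 : ω ≠ 0 := hω.ne_zero hM.ne'
  unfold eg
  rw [map_smul, map_sum, ← Algebra.smul_def, smul_comm (ω ^ c)]
  congr 1
  have h1 : ∀ i ∈ range M, h ((ω⁻¹) ^ (c * i) • h^[i] a) =
      (ω ^ c) • ((ω⁻¹) ^ (c * (i + 1)) • h^[i + 1] a) := by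
    intro i _
    rw [map_smul, ← Function.iterate_succ_apply' h, smul_smul]
    congr 1
    rw [mul_add, mul_one, pow_add, mul_left_comm, ← mul_pow, mul_inv_cancel₀ hω0, one_pow, mul_one]
  rw [Finset.sum_congr rfl h1, ← Finset.smul_sum]
  congr 1
  have h2 := Finset.sum_range_succ (fun i => (ω⁻¹) ^ (c * i) • h^[i] a) M
  rw [Finset.sum_range_succ' (fun i => (ω⁻¹) ^ (c * i) • h^[i] a) M] at h2
  have h3 : (ω⁻¹) ^ (c * M) • h^[M] a = (ω⁻¹) ^ (c * 0) • h^[0] a := by
    rw [hh, mul_zero, pow_zero, mul_comm c, pow_mul, inv_pow, hω.pow_eq_one, inv_one, one_pow]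
    rfl
  rw [h3] at h2
  exact add_right_cancel h2

lemma sum_eg (hω : IsPrimitiveRoot ω M) (hM : 0 < M) (hMk : (M : k) ≠ 0) (a : A) :
    ∑ c ∈ range M, eg h M ω c a = a := by
  unfold eg
  rw [← Finset.smul_sum, Finset.sum_comm]
  have h1 : ∑ i ∈ range M, ∑ c ∈ range M, (ω⁻¹) ^ (c * i) • h^[i] a =
      ∑ c ∈ range M, (ω⁻¹) ^ (c * 0) • h^[0] a := by
    apply Finset.sum_eq_single 0
    · intro i hi hi0
      rw [← Finset.sum_smul]
      have h2 : ∑ c ∈ range M, (ω⁻¹) ^ (c * i) = 0 := by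
        have h3 : ∀ c ∈ range M, (ω⁻¹) ^ (c * i) = ((ω⁻¹) ^ i) ^ c := by
          intro c _
          rw [← pow_mul, mul_comm]
        rw [Finset.sum_congr rfl h3]
        have h4 : (ω⁻¹) ^ i ≠ 1 := by
          have h5 := hω.inv
          exact h5.pow_ne_one_of_pos_of_lt hi0 (mem_range.1 hi)
        rw [geom_sum_eq h4, ← pow_mul, mul_comm, pow_mul, inv_pow, hω.pow_eq_one, inv_one, one_pow,
          sub_self, zero_div]
      rw [h2, zero_smul]
    · intro h0
      exact absurd (mem_range.2 hM) h0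
  rw [h1]
  simp only [mul_zero, pow_zero, one_smul, Finset.sum_const, card_range]
  change (M : k)⁻¹ • M • a = a
  rw [← Nat.cast_smul_eq_nsmul k, smul_smul, inv_mul_cancel₀ hMk, one_smul]

end eig

section tw

variable {k K : Type u} [Field k] [Field K] [Algebra k K]

/-- the character -/
noncomputable def chr (K : Type u) [Field K] [Algebra k K] (ω : k) (hω0 : ω ≠ 0) :
    Multiplicative G3 →* ML K G3 where
  toFun d := mo (Multiplicative.toAdd d) (algebraMap k K (ω ^ co3 (Multiplicative.toAdd d)))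
  map_one' := by
    rw [toAdd_one, map_zero, zpow_zero, map_one]
    exact mo_one
  map_mul' d e := by
    rw [toAdd_mul, map_add, zpow_add₀ hω0, map_mul, mo_mul]

/-- the twisted automorphism -/
noncomputable def et (h : K →ₐ[k] K) (M : ℕ) (ω : k) (hω0 : ω ≠ 0) : ML K G3 →ₐ[k] ML K G3 :=
  ((AddMonoidAlgebra.lift K (ML K G3) G3 (chr K ω hω0)).restrictScalars k).comp
    (gm G3 (h ^ (M - 1)))

lemma et_mo (h : K →ₐ[k] K) (M : ℕ) (ω : k) (hω0 : ω ≠ 0) (d : G3) (a : K) :
    et h M ω hω0 (mo d a) = mo d (algebraMap k K (ω ^ co3 d) * h^[M - 1] a) := by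
  unfold et
  rw [AlgHom.comp_apply, gm_mo]
  change AddMonoidAlgebra.lift K (ML K G3) G3 (chr K ω hω0) (AddMonoidAlgebra.single d _) = _
  rw [AddMonoidAlgebra.lift_single, pow_app]
  change h^[M - 1] a • (mo d (algebraMap k K (ω ^ co3 d)) : ML K G3) = _
  rw [smul_mo, smul_eq_mul, mul_comm]

lemma it_algebraMap_mul {A : Type w} [CommRing A] [Algebra k A] (g : A →ₐ[k] A) (n : ℕ) (c : k)
    (x : A) : g^[n] (algebraMap k A c * x) = algebraMap k A c * g^[n] x := by
  induction n generalizing x with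
  | zero => rfl
  | succ n ih => rw [Function.iterate_succ_apply, map_mul, AlgHom.commutes, ih,
      Function.iterate_succ_apply]

variable {γ h : K →ₐ[k] K} {M : ℕ} {ω : k} {hω0 : ω ≠ 0}

lemma et_fix_mo (hM : 0 < M) (hh : ∀ x, h^[M] x = x) {d : G3} {b : K}
    (hb : h b = algebraMap k K (ω ^ co3 d) * b) : et h M ω hω0 (mo d b) = mo d b := by
  rw [et_mo, ← it_algebraMap_mul, ← hb, ← Function.iterate_succ_apply]
  have h1 : (M - 1).succ = M := by omega
  rw [h1, hh]

lemma zz' : (mo (dg 0 0 1) 1 : ML K G3) * mo (dg 0 0 (-1)) 1 = 1 := by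
  rw [mo_mul, dg_add, one_mul]
  exact mo_one

lemma mo_sum {d : G3} {ι : Type} (s : Finset ι) (f : ι → K) :
    (mo d (∑ i ∈ s, f i) : ML K G3) = ∑ i ∈ s, mo d (f i) := by
  classical
  induction s using Finset.induction_on with
  | empty => rw [Finset.sum_empty, Finset.sum_empty, mo_zero]
  | insert a s ha ih => rw [Finset.sum_insert ha, Finset.sum_insert ha, mo_add, ih]


/-- the functions with support in the kernel of a degree map -/
noncomputable def SK (k : Type u) {K : Type u} [Field k] [Field K] [Algebra k K] (τ : G3 →+ ℤ) :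
    Subalgebra k (ML K G3) where
  carrier := {f | ∀ d, f.coeff d ≠ 0 → τ d = 0}
  mul_mem' := by
    intro f g hf hg e he
    rw [coeff_mul_sum] at he
    obtain ⟨a, _, ha⟩ := Finset.exists_ne_zero_of_sum_ne_zero he
    have h1 := hf a (left_ne_zero_of_mul ha)
    have h2 := hg (e - a) (right_ne_zero_of_mul ha)
    rw [map_sub, h1, sub_zero] at h2
    exact h2
  add_mem' := by
    intro f g hf hg e he
    rw [coeff_add'] at he
    by_cases h1 : f.coeff e = 0
    · rw [h1, zero_add] at he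
      exact hg e he
    · exact hf e h1
  algebraMap_mem' := by
    intro r e he
    rw [algebraMap_ML] at he
    by_contra h
    apply he
    refine coeff_mo_ne ?_ _
    rintro rfl
    exact h (map_zero τ)

lemma mem_SK {τ : G3 →+ ℤ} {d : G3} (hd : τ d = 0) (a : K) : mo d a ∈ SK k τ := by
  intro e he
  by_cases h1 : d = e
  · rw [← h1]; exact hd
  · exact absurd (coeff_mo_ne h1 a) he

/-- independence of the powers of a monomial of degree one -/
lemma indep (S : Subalgebra k (ML K G3)) (τ : G3 →+ ℤ) (hS : S ≤ SK k τ) (e : G3) (he : τ e = 1)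
    (c : ℕ →₀ ML K G3) (hc : ∀ i, c i ∈ S) (h0 : (c.sum fun i a => a * (mo e 1) ^ i) = 0) :
    c = 0 := by
  classical
  ext1 i
  refine ml_ext fun d => ?_
  rw [Finsupp.coe_zero, Pi.zero_apply, coeff_zero']
  by_contra hne
  have hd : τ d = 0 := hS (hc i) d hne
  have h1 := congrArg (fun f : ML K G3 => f.coeff (d + i • e)) h0
  simp only [coeff_zero'] at h1
  rw [Finsupp.sum, coeff_sum'] at h1
  have h2 : ∀ j : ℕ, (c j * (mo e 1) ^ j : ML K G3).coeff (d + i • e) =
      (c j).coeff (d + i • e - j • e) := by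
    intro j
    rw [mo_pow, one_pow, mul_comm, coeff_mo_mul, one_mul]
  rw [Finset.sum_eq_single i] at h1
  · rw [h2, add_sub_cancel_right] at h1
    exact hne h1
  · intro j _ hji
    rw [h2]
    by_contra h3
    have h4 : τ (d + i • e - j • e) = 0 := hS (hc j) _ h3
    rw [map_sub, map_add, map_nsmul, map_nsmul, he, hd, zero_add] at h4
    simp only [nsmul_eq_mul, mul_one] at h4
    apply hji
    have : (i : ℤ) = j := by linarith
    exact_mod_cast this.symm
  · intro hi
    rw [Finsupp.notMem_support_iff] at hi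
    rw [hi, zero_mul, coeff_zero']

/-- the embedding of the coefficients -/
noncomputable def i0 (k : Type u) (K : Type u) [Field k] [Field K] [Algebra k K] :
    K →ₐ[k] ML K G3 where
  toFun a := mo 0 a
  map_one' := mo_one
  map_mul' a b := by rw [mo_mul, zero_add]
  map_zero' := mo_zero 0
  map_add' a b := mo_add 0 a b
  commutes' r := rfl

lemma i0_inj : Function.Injective (i0 k K) := fun _ _ hab => mo_inj (d := (0 : G3)) hab

/-- one Laurent extension -/
noncomputable def Ex (S : Subalgebra k (ML K G3)) (e : G3) : Subalgebra k (ML K G3) :=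
  Algebra.adjoin k ((S : Set (ML K G3)) ∪ {mo e 1, mo (-e) 1})

lemma Ex_smooth (S : Subalgebra k (ML K G3)) (τ : G3 →+ ℤ) (hS : S ≤ SK k τ) (e : G3)
    (he : τ e = 1) (hsm : Algebra.Smooth k S) : Algebra.Smooth k (Ex S e) := by
  refine Pool.Agent.W32.Et.laur k (ML K G3) S (mo e 1) (mo (-e) 1) ?_ ?_ hsm
  · rw [mo_mul, add_neg_cancel, one_mul, mo_one]
  · exact fun c hc h0 => indep S τ hS e he c hc h0

lemma Ex_SK (S : Subalgebra k (ML K G3)) (τ : G3 →+ ℤ) (hS : S ≤ SK k τ) (e : G3)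
    (he : τ e = 0) : Ex S e ≤ SK k τ := by
  unfold Ex
  rw [Algebra.adjoin_le_iff]
  rintro y (hy | hy | hy)
  · exact hS hy
  · rw [hy]; exact mem_SK he 1
  · rw [hy]; exact mem_SK (by rw [map_neg, he, neg_zero]) 1

lemma le_Ex (S : Subalgebra k (ML K G3)) (e : G3) : S ≤ Ex S e :=
  fun _ hx => Algebra.subset_adjoin (Or.inl hx)

lemma zpow_Ex (S : Subalgebra k (ML K G3)) (e : G3) (c : ℤ) : (mo (c • e) 1 : ML K G3) ∈ Ex S e := by
  rcases Int.eq_nat_or_neg c with ⟨n, rfl | rfl⟩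
  · have h3 := (Ex S e).pow_mem (Algebra.subset_adjoin (Or.inr (Or.inl rfl)) :
      (mo e 1 : ML K G3) ∈ Ex S e) n
    rw [mo_pow, one_pow] at h3
    rw [natCast_zsmul]
    exact h3
  · have h3 := (Ex S e).pow_mem (Algebra.subset_adjoin (Or.inr (Or.inr rfl)) :
      (mo (-e) 1 : ML K G3) ∈ Ex S e) n
    rw [mo_pow, one_pow, smul_neg] at h3
    rw [neg_smul, natCast_zsmul]
    exact h3

end tw

theorem cbsm : CbSmStm.{u} := by
  intro k K _ _ _ γ h p M ω hG B hhB hsm
  have hω0 : ω ≠ 0 := hG.om.ne_zero hG.M0.ne'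
  set B0 : Subalgebra k (ML K G3) := B.map (i0 k K) with hB0
  have hB0sm : Algebra.Smooth k B0 :=
    Algebra.Smooth.of_equiv (B.equivMapOfInjective (i0 k K) i0_inj)
  have hB0K : ∀ τ : G3 →+ ℤ, B0 ≤ SK k τ := by
    rintro τ _ ⟨a, _, rfl⟩
    exact mem_SK (map_zero τ) a
  set E1 := Ex B0 (dg 1 0 0) with hE1
  set E2 := Ex E1 (dg 0 1 0) with hE2
  set E3 := Ex E2 (dg 0 0 1) with hE3
  have s1 : Algebra.Smooth k E1 := Ex_smooth B0 co1 (hB0K _) _ (co1_dg _ _ _) hB0sm
  have s2 : Algebra.Smooth k E2 := Ex_smooth E1 co2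
    (Ex_SK _ _ (hB0K _) _ (co2_dg _ _ _)) _ (co2_dg _ _ _) s1
  have s3 : Algebra.Smooth k E3 := Ex_smooth E2 co3
    (Ex_SK _ _ (Ex_SK _ _ (hB0K _) _ (co3_dg _ _ _)) _ (co3_dg _ _ _)) _ (co3_dg _ _ _) s2
  have hneg : -dg 0 0 1 = dg 0 0 (-1) := by rw [dg_neg, neg_zero]
  have hneg1 : -dg 1 0 0 = dg (-1) 0 0 := by rw [dg_neg, neg_zero]
  have hneg2 : -dg 0 1 0 = dg 0 (-1) 0 := by rw [dg_neg, neg_zero]
  have hmoB : ∀ a ∈ B, (mo 0 a : ML K G3) ∈ E3 := fun a ha =>
    le_Ex _ _ (le_Ex _ _ (le_Ex _ _ ⟨a, ha, rfl⟩))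
  have hmo1 : ∀ d : G3, (mo d 1 : ML K G3) ∈ E3 := by
    intro d
    have e1 : (mo d 1 : ML K G3) = mo (d.1 • dg 1 0 0) 1 * mo (d.2.1 • dg 0 1 0) 1 *
        mo (d.2.2.1 • dg 0 0 1) 1 := by
      rw [mo_mul, mo_mul, one_mul, one_mul]
      congr 1
      unfold dg
      ext <;> simp
    rw [e1]
    exact E3.mul_mem (E3.mul_mem (le_Ex _ _ (le_Ex _ _ (zpow_Ex _ _ _)))
      (le_Ex _ _ (zpow_Ex _ _ _))) (zpow_Ex _ _ _)
  have hmoC : ∀ (d : G3) (a : K), a ∈ B → h a = algebraMap k K (ω ^ co3 d) * a →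
      mo d a ∈ CB h ω B := fun d a ha hd => Algebra.subset_adjoin ⟨d, a, ha, hd, rfl⟩
  have hC1 : ∀ d : G3, co3 d = 0 → (mo d 1 : ML K G3) ∈ CB h ω B := by
    intro d hd
    refine hmoC d 1 B.one_mem ?_
    rw [hd, zpow_zero, map_one, map_one, one_mul]
  set z : ML K G3 := mo (dg 0 0 1) 1 with hz
  set z' : ML K G3 := mo (dg 0 0 (-1)) 1 with hz'
  have hadj : Algebra.adjoin k ((CB h ω B : Set (ML K G3)) ∪ {z, z'}) = E3 := by
    apply le_antisymm
    · rw [Algebra.adjoin_le_iff]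
      rintro y (hy | hy | hy)
      · have hle : CB h ω B ≤ E3 := by
          unfold CB
          rw [Algebra.adjoin_le_iff]
          rintro _ ⟨d, a, ha, _, rfl⟩
          have e1 : (mo d a : ML K G3) = mo 0 a * mo d 1 := by rw [mo_mul, zero_add, mul_one]
          show mo d a ∈ E3
          rw [e1]
          exact E3.mul_mem (hmoB a ha) (hmo1 d)
        exact hle hy
      · rw [hy]; exact hmo1 _
      · rw [hy]; exact hmo1 _
    · set A := Algebra.adjoin k ((CB h ω B : Set (ML K G3)) ∪ {z, z'}) with hA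
      have hCA : ∀ x ∈ CB h ω B, x ∈ A := fun x hx => Algebra.subset_adjoin (Or.inl hx)
      have hzA : z ∈ A := Algebra.subset_adjoin (Or.inr (Or.inl rfl))
      have hz'A : z' ∈ A := Algebra.subset_adjoin (Or.inr (Or.inr rfl))
      have hB0A : B0 ≤ A := by
        rintro _ ⟨a, ha, rfl⟩
        show (mo 0 a : ML K G3) ∈ A
        rw [← sum_eg h M ω hG.om hG.M0 hG.Mk a, mo_sum]
        apply A.sum_mem
        intro c _
        have h2 : (mo 0 (eg h M ω c a) : ML K G3) = mo (dg 0 0 c) (eg h M ω c a) * z' ^ c := by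
          rw [hz', mo_pow, one_pow, dg_nsmul, mo_mul, dg_add, mul_one]
          simp [dg_zero]
        rw [h2]
        refine A.mul_mem (hCA _ (hmoC _ _ (eg_mem h M ω B hhB c ha) ?_)) (A.pow_mem hz'A c)
        rw [co3_dg, zpow_natCast]
        exact h_eg h M ω hG.om hG.M0 hG.hM c a
      have hE1A : E1 ≤ A := by
        rw [hE1, Ex, Algebra.adjoin_le_iff]
        rintro y (hy | hy | hy)
        · exact hB0A hy
        · rw [hy]; exact hCA _ (hC1 _ rfl)
        · rw [hy]; exact hCA _ (hC1 _ rfl)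
      have hE2A : E2 ≤ A := by
        rw [hE2, Ex, Algebra.adjoin_le_iff]
        rintro y (hy | hy | hy)
        · exact hE1A hy
        · rw [hy]; exact hCA _ (hC1 _ rfl)
        · rw [hy]; exact hCA _ (hC1 _ rfl)
      rw [hE3, Ex, Algebra.adjoin_le_iff]
      rintro y (hy | hy | hy)
      · exact hE2A hy
      · rw [hy]; exact hzA
      · rw [hy, hneg]; exact hz'A
  refine Pool.Agent.W762.ET.tame k (ML K G3) M hG.M0 hG.Mk ω hG.om (et h M ω hω0) z z' zz' ?_
    (CB h ω B) ?_ ?_ ?_ ?_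
  · rw [hz, et_mo, co3_dg, zpow_one, algebraMap_ML, mo_mul, zero_add, mul_one]
    congr 1
    have : ∀ n : ℕ, h^[n] (1 : K) = 1 := by
      intro n
      induction n with
      | zero => rfl
      | succ n ih => rw [Function.iterate_succ_apply', ih, map_one]
    rw [this, mul_one]
  · intro f hf
    have h1 : CB h ω B ≤ fx (et h M ω hω0) := by
      unfold CB
      rw [Algebra.adjoin_le_iff]
      rintro _ ⟨d, a, _, had, rfl⟩
      exact et_fix_mo hG.M0 hG.hM had
    exact h1 hf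
  · rw [hz, mo_pow, one_pow, dg_nsmul, mul_zero, mul_one]
    refine hmoC _ 1 B.one_mem ?_
    rw [co3_dg, zpow_natCast, hG.om.pow_eq_one, map_one, map_one, one_mul]
  · rw [hz', mo_pow, one_pow, dg_nsmul, mul_zero, mul_neg, mul_one]
    refine hmoC _ 1 B.one_mem ?_
    rw [co3_dg, zpow_neg, zpow_natCast, hG.om.pow_eq_one, inv_one, map_one, map_one, one_mul]
  · rw [hadj]
    exact s3

end Pool.Agent.W293.ET
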